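import Mathlib
import Pool.Agent.Helper8.DP2.Defs

set_option autoImplicit false

/-! Modules DQ-P1, DQ-P2: squares and norms in the `p`-adic numbers. -/

namespace Pool.Agent.Helper8.DP2

namespace SqAux

variable {p : ℕ} [Fact p.Prime]

lemma norm_lt_one_iff (x : ℤ_[p]) : ‖x‖ < 1 ↔ PadicInt.toZMod x = 0 := by
  rw [← RingHom.mem_ker, PadicInt.ker_toZMod, IsLocalRing.mem_maximalIdeal,
    PadicInt.mem_nonunits]

lemma isUnit_iff_toZMod (x : ℤ_[p]) : IsUnit x ↔ PadicInt.toZMod x ≠ 0 := by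
  rw [← not_iff_not, not_not, ← norm_lt_one_iff, ← PadicInt.mem_nonunits, mem_nonunits_iff]

lemma toZMod_surj (a : ZMod p) : ∃ x : ℤ_[p], PadicInt.toZMod x = a := by
  refine ⟨(a.val : ℤ_[p]), ?_⟩
  rw [map_natCast, ZMod.natCast_val, ZMod.cast_id', id]

lemma norm_two (hp : p ≠ 2) : ‖(2 : ℤ_[p])‖ = 1 := by
  rw [← PadicInt.isUnit_iff, isUnit_iff_toZMod]
  have h : PadicInt.toZMod (2 : ℤ_[p]) = ((2 : ℕ) : ZMod p) := by
    rw [map_ofNat]; rfl
  rw [h, Ne, ZMod.natCast_eq_zero_iff]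
  intro h2
  exact hp ((Nat.prime_dvd_prime_iff_eq (Fact.out) Nat.prime_two).1 h2)

end SqAux

open SqAux

theorem isSquare_of_toZMod {p : ℕ} [Fact p.Prime] (hp : p ≠ 2) (u : ℤ_[p]) (hu : IsUnit u)
    (h : IsSquare (PadicInt.toZMod u)) : IsSquare u := by
  obtain ⟨r, hr⟩ := h
  obtain ⟨a, ha⟩ := toZMod_surj r
  have hu0 := (isUnit_iff_toZMod u).1 hu
  have har : r ≠ 0 := by
    rintro rfl
    exact hu0 (by rw [hr, mul_zero])
  have hna : ‖a‖ = 1 := by
    rw [← PadicInt.isUnit_iff, isUnit_iff_toZMod, ha]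
    exact har
  have hF : ‖(Polynomial.X ^ 2 - Polynomial.C u : Polynomial ℤ_[p]).aeval a‖ <
      ‖(Polynomial.X ^ 2 - Polynomial.C u : Polynomial ℤ_[p]).derivative.aeval a‖ ^ 2 := by
    have e1 : (Polynomial.X ^ 2 - Polynomial.C u : Polynomial ℤ_[p]).aeval a = a ^ 2 - u := by
      simp
    have e2 : (Polynomial.X ^ 2 - Polynomial.C u : Polynomial ℤ_[p]).derivative.aeval a =
        2 * a := by
      simp
      left
      norm_num
    rw [e1, e2, norm_mul, norm_two hp, hna, one_mul, one_pow, norm_lt_one_iff, map_sub, map_pow,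
      ha, hr]
    ring
  obtain ⟨z, hz, -⟩ := hensels_lemma hF
  refine ⟨z, ?_⟩
  have e1 : (Polynomial.X ^ 2 - Polynomial.C u : Polynomial ℤ_[p]).aeval z = z ^ 2 - u := by
    simp
  rw [e1, sub_eq_zero] at hz
  rw [← hz, sq]

theorem isSquare_int {p : ℕ} [Fact p.Prime] (hp : p ≠ 2) (d : ℤ) (hd : ¬ (p : ℤ) ∣ d)
    (h : IsSquare (d : ZMod p)) : IsSquare (d : ℚ_[p]) := by
  have h1 : IsUnit (d : ℤ_[p]) := by
    rw [isUnit_iff_toZMod, map_intCast, Ne, ZMod.intCast_zmod_eq_zero_iff_dvd]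
    exact hd
  obtain ⟨z, hz⟩ := isSquare_of_toZMod hp (d : ℤ_[p]) h1 (by rw [map_intCast]; exact h)
  refine ⟨(z : ℚ_[p]), ?_⟩
  have := congrArg (fun t : ℤ_[p] => (t : ℚ_[p])) hz
  simp only [PadicInt.coe_mul, PadicInt.coe_intCast] at this
  exact this

theorem isSquare_two (d : ℤ) (h : d % 8 = 1) : IsSquare (d : ℚ_[2]) := by
  have hF : ‖(Polynomial.X ^ 2 - Polynomial.C (d : ℤ_[2]) : Polynomial ℤ_[2]).aeval (1 : ℤ_[2])‖ <
      ‖(Polynomial.X ^ 2 - Polynomial.C (d : ℤ_[2]) : Polynomial ℤ_[2]).derivative.aeval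
        (1 : ℤ_[2])‖ ^ 2 := by
    have e1 : (Polynomial.X ^ 2 - Polynomial.C (d : ℤ_[2]) : Polynomial ℤ_[2]).aeval
        (1 : ℤ_[2]) = ((1 - d : ℤ) : ℤ_[2]) := by
      simp
    have e2 : (Polynomial.X ^ 2 - Polynomial.C (d : ℤ_[2]) : Polynomial ℤ_[2]).derivative.aeval
        (1 : ℤ_[2]) = 2 := by
      simp
      norm_num
    rw [e1, e2]
    have h1 : ‖((1 - d : ℤ) : ℤ_[2])‖ ≤ (2 : ℝ) ^ (-(3 : ℕ) : ℤ) := by
      have := (PadicInt.norm_int_le_pow_iff_dvd (p := 2) (k := 1 - d) (n := 3)).2 (by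
        norm_num
        omega)
      exact_mod_cast this
    have h2 : ‖(2 : ℤ_[2])‖ = 1 / 2 := by
      have := PadicInt.norm_p (p := 2)
      push_cast at this
      rw [this]
      norm_num
    rw [h2]
    refine lt_of_le_of_lt h1 ?_
    norm_num
  obtain ⟨z, hz, -⟩ := hensels_lemma hF
  refine ⟨(z : ℚ_[2]), ?_⟩
  have e1 : (Polynomial.X ^ 2 - Polynomial.C (d : ℤ_[2]) : Polynomial ℤ_[2]).aeval z =
      z ^ 2 - (d : ℤ_[2]) := by
    simp
  rw [e1, sub_eq_zero] at hz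
  have := congrArg (fun t : ℤ_[2] => (t : ℚ_[2])) hz
  simp only [PadicInt.coe_pow, PadicInt.coe_intCast] at this
  rw [← this, sq]

theorem IsN.of_isSquare' {K : Type*} [Field K] (h2 : (2 : K) ≠ 0) {d : K} (hd : d ≠ 0)
    (h : IsSquare d) (a : K) : IsN K d a := by
  obtain ⟨e, he⟩ := h
  have he0 : e ≠ 0 := by
    rintro rfl
    exact hd (by rw [he, mul_zero])
  refine ⟨(a + 1) / 2, (a - 1) / (2 * e), ?_⟩
  rw [he]
  field_simp
  ring

theorem isN_unit {p : ℕ} [Fact p.Prime] (hp : p ≠ 2) (d : ℤ) (hd : ¬ (p : ℤ) ∣ d)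
    (u : ℤ_[p]) (hu : IsUnit u) : IsN ℚ_[p] (d : ℚ_[p]) (u : ℚ_[p]) := by
  have hd0 : d ≠ 0 := by
    rintro rfl
    exact hd (dvd_zero _)
  have hdQ : (d : ℚ_[p]) ≠ 0 := by exact_mod_cast hd0
  have hdZ : (d : ZMod p) ≠ 0 := by
    rw [Ne, ZMod.intCast_zmod_eq_zero_iff_dvd]
    exact hd
  have hu0 := (isUnit_iff_toZMod u).1 hu
  set v := PadicInt.toZMod u with hv
  -- solve `x ^ 2 - d y ^ 2 = v`
  obtain ⟨x, y, hxy⟩ : ∃ x y : ZMod p, x ^ 2 - d * y ^ 2 = v := by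
    have hcard : Fintype.card (ZMod p) % 2 = 1 := by
      rw [ZMod.card]
      rcases (Fact.out : p.Prime).eq_two_or_odd with h | h
      · exact absurd h hp
      · exact h
    obtain ⟨a, b, hab⟩ := FiniteField.exists_root_sum_quadratic
      (f := (Polynomial.X ^ 2 - Polynomial.C v : Polynomial (ZMod p)))
      (g := Polynomial.C (-(d : ZMod p)) * Polynomial.X ^ 2)
      (Polynomial.degree_X_pow_sub_C (by norm_num) _)
      (Polynomial.degree_C_mul_X_pow 2 (neg_ne_zero.2 hdZ)) hcard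
    refine ⟨a, b, ?_⟩
    simp only [Polynomial.eval_sub, Polynomial.eval_pow, Polynomial.eval_X, Polynomial.eval_C,
      Polynomial.eval_mul] at hab
    linear_combination hab
  by_cases hx : x = 0
  · -- then `- v / d` is a square
    have h1 : IsUnit (-(d : ℤ_[p]) * u) := by
      rw [isUnit_iff_toZMod, map_mul, map_neg, map_intCast]
      exact mul_ne_zero (neg_ne_zero.2 hdZ) hu0
    obtain ⟨z, hz⟩ := isSquare_of_toZMod hp _ h1 (by
      refine ⟨d * y, ?_⟩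
      rw [map_mul, map_neg, map_intCast, ← hv, ← hxy, hx]
      ring)
    refine ⟨0, (z : ℚ_[p]) / d, ?_⟩
    have h3 := congrArg (fun t : ℤ_[p] => (t : ℚ_[p])) hz
    simp only [PadicInt.coe_mul, PadicInt.coe_neg, PadicInt.coe_intCast] at h3
    have h4 : (u : ℚ_[p]) = -((z : ℚ_[p]) * z) / d := by
      rw [eq_div_iff hdQ]
      linear_combination -h3
    rw [h4]
    field_simp
    ring
  · obtain ⟨b, hb⟩ := toZMod_surj y
    have h1 : PadicInt.toZMod (u + (d : ℤ_[p]) * b ^ 2) = x ^ 2 := by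
      rw [map_add, map_mul, map_pow, map_intCast, hb, ← hv, ← hxy]
      ring
    obtain ⟨z, hz⟩ := isSquare_of_toZMod hp (u + (d : ℤ_[p]) * b ^ 2) (by
      rw [isUnit_iff_toZMod, h1]
      exact pow_ne_zero _ hx) (by
      rw [h1]
      exact ⟨x, sq x⟩)
    refine ⟨(z : ℚ_[p]), (b : ℚ_[p]), ?_⟩
    have h3 := congrArg (fun t : ℤ_[p] => (t : ℚ_[p])) hz
    simp only [PadicInt.coe_mul, PadicInt.coe_add, PadicInt.coe_pow,
      PadicInt.coe_intCast] at h3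
    linear_combination h3

theorem isN_ram {p : ℕ} [Fact p.Prime] (hp : p ≠ 2) (d e : ℤ) (hd : d = p * e)
    (he : ¬ (p : ℤ) ∣ e) (u : ℤ_[p]) (hu : IsUnit u) :
    IsN ℚ_[p] (d : ℚ_[p]) (u : ℚ_[p]) ↔ IsSquare (PadicInt.toZMod u) := by
  constructor
  · rintro ⟨s, t, h⟩
    have hu1 : ‖(u : ℚ_[p])‖ = 1 := by
      rw [← PadicInt.norm_def]
      exact PadicInt.isUnit_iff.1 hu
    have hp0 : (0 : ℝ) < p := by exact_mod_cast (Fact.out : p.Prime).pos
    have hp1 : (1 : ℝ) < p := by exact_mod_cast (Fact.out : p.Prime).one_lt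
    have heN : ‖(e : ℚ_[p])‖ = 1 := by
      refine le_antisymm (Padic.norm_int_le_one e) (not_lt.1 fun h => he ?_)
      exact Padic.norm_intCast_lt_one_iff.1 h
    have hdN : ‖(d : ℚ_[p])‖ = (p : ℝ)⁻¹ := by
      rw [hd]
      push_cast
      rw [norm_mul, heN, mul_one, Padic.norm_p]
    by_cases ht : t = 0
    · -- `u = s ^ 2`
      rw [ht, zero_pow (by norm_num), mul_zero, sub_zero] at h
      have hs : ‖s‖ = 1 := by
        have h1 : ‖s‖ ^ 2 = 1 := by rw [← norm_pow, ← h, hu1]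
        exact (pow_eq_one_iff_of_nonneg (norm_nonneg _) (by norm_num)).1 h1
      refine ⟨PadicInt.toZMod (⟨s, hs.le⟩ : ℤ_[p]), ?_⟩
      rw [← map_mul]
      congr 1
      apply Subtype.ext
      rw [h]
      push_cast
      rw [sq]
    have htN : 0 < ‖t‖ := norm_pos_iff.2 ht
    obtain ⟨b, hb⟩ : ∃ b : ℤ, ‖t‖ = (p : ℝ) ^ (-b) :=
      ⟨t.valuation, Padic.norm_eq_zpow_neg_valuation ht⟩
    have hdt : ‖(d : ℚ_[p]) * t ^ 2‖ = (p : ℝ) ^ (-(1 + 2 * b)) := by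
      rw [norm_mul, norm_pow, hdN, hb, ← zpow_natCast, ← zpow_mul, ← zpow_neg_one,
        ← zpow_add₀ hp0.ne']
      congr 1
      push_cast
      ring
    have hne : ‖s ^ 2‖ ≠ ‖(d : ℚ_[p]) * t ^ 2‖ := by
      by_cases hs : s = 0
      · rw [hs, hdt, zero_pow (by norm_num), norm_zero]
        exact (zpow_pos hp0 _).ne
      · intro h1
        rw [hdt, norm_pow, Padic.norm_eq_zpow_neg_valuation hs, ← zpow_natCast, ← zpow_mul] at h1
        have h2 := zpow_right_injective₀ hp0 hp1.ne' h1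
        push_cast at h2
        omega
    have hmax : max ‖s ^ 2‖ ‖(d : ℚ_[p]) * t ^ 2‖ = 1 := by
      rw [← hu1, h, sub_eq_add_neg, Padic.add_eq_max_of_ne (by rw [norm_neg]; exact hne), norm_neg]
    have hdt1 : ‖(d : ℚ_[p]) * t ^ 2‖ ≤ 1 := by
      rw [← hmax]
      exact le_max_right _ _
    have hdt2 : ‖(d : ℚ_[p]) * t ^ 2‖ < 1 := by
      refine lt_of_le_of_ne hdt1 fun h1 => ?_
      rw [hdt, ← zpow_zero (p : ℝ)] at h1
      have h2 := zpow_right_injective₀ hp0 hp1.ne' h1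
      omega
    have hb0 : 0 ≤ b := by
      rw [hdt, ← zpow_zero (p : ℝ)] at hdt2
      have h2 := (zpow_lt_zpow_iff_right₀ hp1).1 hdt2
      omega
    have ht1 : ‖t‖ ≤ 1 := by
      rw [hb]
      exact zpow_le_one_of_nonpos₀ hp1.le (by omega)
    have hs2 : ‖s ^ 2‖ = 1 := by
      rcases max_choice ‖s ^ 2‖ ‖(d : ℚ_[p]) * t ^ 2‖ with h1 | h1
      · rw [← h1, hmax]
      · rw [h1] at hmax
        exact absurd hmax hdt2.ne
    have hs : ‖s‖ = 1 := by
      rw [norm_pow] at hs2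
      exact (pow_eq_one_iff_of_nonneg (norm_nonneg _) (by norm_num)).1 hs2
    refine ⟨PadicInt.toZMod (⟨s, hs.le⟩ : ℤ_[p]), ?_⟩
    set s' : ℤ_[p] := ⟨s, hs.le⟩ with hs'
    set t' : ℤ_[p] := ⟨t, ht1⟩ with ht'
    have h3 : u = s' * s' - (d : ℤ_[p]) * t' ^ 2 := by
      apply Subtype.ext
      push_cast
      rw [h, sq]
    have hd0 : PadicInt.toZMod (d : ℤ_[p]) = 0 := by
      rw [map_intCast, hd]
      push_cast
      rw [ZMod.natCast_self, zero_mul]
    rw [h3, map_sub, map_mul, map_mul, hd0, zero_mul, sub_zero]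
  · intro h
    obtain ⟨z, hz⟩ := isSquare_of_toZMod hp u hu h
    refine ⟨(z : ℚ_[p]), 0, ?_⟩
    rw [hz]
    push_cast
    ring

end Pool.Agent.Helper8.DP2
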