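import Mathlib
import Pool.Agent.Helper8.DP2.Defs
import Pool.Agent.Helper4.DP2.Sq

set_option autoImplicit false

/-! Module DQ-E: existence of local points at good places. -/

namespace Pool.Agent.Helper8.DP2

namespace EAux

lemma F_map {R S : Type*} [CommRing R] [CommRing S] (φ : R →+* S) (m n : ℤ) (x y z : R) :
    φ (F m n x y z) = F m n (φ x) (φ y) (φ z) := by
  simp only [F, map_sub, map_mul, map_add, map_pow, map_intCast, map_ofNat]

/-- smoothness in good characteristic (local copy) -/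
lemma no_sing {K : Type*} [Field K] {m n : ℤ} (hb : ((bad m n : ℤ) : K) ≠ 0)
    (x y z : K)
    (h1 : 4 * (((m : K) ^ 2 + (n : K) ^ 2) ^ 2 * x ^ 3
      - ((m : K) ^ 4 + (n : K) ^ 4) * x * (y ^ 2 + z ^ 2)) = 0)
    (h2 : 4 * (((m : K) ^ 2 + (n : K) ^ 2) ^ 2 * y ^ 3
      - ((m : K) ^ 4 + (n : K) ^ 4) * y * (z ^ 2 + x ^ 2)) = 0)
    (h3 : 4 * (((m : K) ^ 2 + (n : K) ^ 2) ^ 2 * z ^ 3
      - ((m : K) ^ 4 + (n : K) ^ 4) * z * (x ^ 2 + y ^ 2)) = 0) :
    x = 0 ∧ y = 0 ∧ z = 0 := by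
  have hb' : (2 : K) * m * n * (m ^ 2 - n ^ 2) * (m ^ 2 + n ^ 2) *
      (m ^ 4 + m ^ 2 * n ^ 2 + n ^ 4) ≠ 0 := by
    have e : ((bad m n : ℤ) : K) = (2 : K) * m * n * (m ^ 2 - n ^ 2) * (m ^ 2 + n ^ 2) *
      (m ^ 4 + m ^ 2 * n ^ 2 + n ^ 4) := by
      unfold bad kap
      push_cast
      ring
    rw [← e]
    exact hb
  have hk : (m : K) ^ 4 + m ^ 2 * n ^ 2 + n ^ 4 ≠ 0 := right_ne_zero_of_mul hb'
  have hb2 := left_ne_zero_of_mul hb'
  have hP : (m : K) ^ 2 + n ^ 2 ≠ 0 := right_ne_zero_of_mul hb2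
  have hb3 := left_ne_zero_of_mul hb2
  have hM : (m : K) ^ 2 - n ^ 2 ≠ 0 := right_ne_zero_of_mul hb3
  have hb4 := left_ne_zero_of_mul hb3
  have hn : (n : K) ≠ 0 := right_ne_zero_of_mul hb4
  have hb5 := left_ne_zero_of_mul hb4
  have hm : (m : K) ≠ 0 := right_ne_zero_of_mul hb5
  have h2' : (2 : K) ≠ 0 := left_ne_zero_of_mul hb5
  have h4 : (4 : K) ≠ 0 := by
    have : (4 : K) = 2 * 2 := by norm_num
    rw [this]
    exact mul_ne_zero h2' h2'
  -- key facts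
  have key : ∀ a b c : K, 4 * (((m : K) ^ 2 + (n : K) ^ 2) ^ 2 * a ^ 3
      - ((m : K) ^ 4 + (n : K) ^ 4) * a * (b ^ 2 + c ^ 2)) = 0 → a ≠ 0 →
      ((m : K) ^ 2 + (n : K) ^ 2) ^ 2 * a ^ 2 = ((m : K) ^ 4 + (n : K) ^ 4) * (b ^ 2 + c ^ 2) := by
    intro a b c h ha
    have h5 := (mul_eq_zero.1 h).resolve_left h4
    have h6 : a * (((m : K) ^ 2 + (n : K) ^ 2) ^ 2 * a ^ 2 -
        ((m : K) ^ 4 + (n : K) ^ 4) * (b ^ 2 + c ^ 2)) = 0 := by linear_combination h5
    exact sub_eq_zero.1 ((mul_eq_zero.1 h6).resolve_left ha)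
  -- one nonzero coordinate
  have one : ∀ a : K, ((m : K) ^ 2 + (n : K) ^ 2) ^ 2 * a ^ 2 = 0 → a = 0 := by
    intro a h
    have := (mul_eq_zero.1 h).resolve_left (pow_ne_zero 2 hP)
    exact pow_eq_zero_iff (two_ne_zero) |>.1 this
  -- two nonzero coordinates
  have two : ∀ a b : K, ((m : K) ^ 2 + (n : K) ^ 2) ^ 2 * a ^ 2 =
      ((m : K) ^ 4 + (n : K) ^ 4) * b ^ 2 → ((m : K) ^ 2 + (n : K) ^ 2) ^ 2 * b ^ 2 =
      ((m : K) ^ 4 + (n : K) ^ 4) * a ^ 2 → a = 0 := by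
    intro a b ha hb
    have h5 : (2 * 2 * (m : K) ^ 2 * n ^ 2 * (m ^ 4 + m ^ 2 * n ^ 2 + n ^ 4)) * a ^ 2 = 0 := by
      linear_combination (((m : K) ^ 2 + (n : K) ^ 2) ^ 2) * ha + ((m : K) ^ 4 + (n : K) ^ 4) * hb
    have h6 := (mul_eq_zero.1 h5).resolve_left (mul_ne_zero (mul_ne_zero (mul_ne_zero
      (mul_ne_zero h2' h2') (pow_ne_zero 2 hm)) (pow_ne_zero 2 hn)) hk)
    exact pow_eq_zero_iff (two_ne_zero) |>.1 h6
  by_cases hx : x = 0
  · by_cases hy : y = 0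
    · by_cases hz : z = 0
      · exact ⟨hx, hy, hz⟩
      · have := key z x y h3 hz
        exact absurd (one z (by rw [this, hx, hy]; ring)) hz
    · by_cases hz : z = 0
      · have := key y z x h2 hy
        exact absurd (one y (by rw [this, hx, hz]; ring)) hy
      · have a1 := key y z x h2 hy
        have a2 := key z x y h3 hz
        exact absurd (two y z (by rw [a1, hx]; ring) (by rw [a2, hx]; ring)) hy
  · by_cases hy : y = 0
    · by_cases hz : z = 0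
      · have := key x y z h1 hx
        exact absurd (one x (by rw [this, hy, hz]; ring)) hx
      · have a1 := key x y z h1 hx
        have a2 := key z x y h3 hz
        exact absurd (two x z (by rw [a1, hy]; ring) (by rw [a2, hy]; ring)) hx
    · by_cases hz : z = 0
      · have a1 := key x y z h1 hx
        have a2 := key y z x h2 hy
        exact absurd (two x y (by rw [a1, hz]; ring) (by rw [a2, hz]; ring)) hx
      · have a1 := key x y z h1 hx
        have a2 := key y z x h2 hy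
        have a3 := key z x y h3 hz
        have b1 : (2 * ((m : K) ^ 4 + m ^ 2 * n ^ 2 + n ^ 4)) * (x ^ 2 - y ^ 2) = 0 := by
          linear_combination a1 - a2
        have b2 : (2 * ((m : K) ^ 4 + m ^ 2 * n ^ 2 + n ^ 4)) * (x ^ 2 - z ^ 2) = 0 := by
          linear_combination a1 - a3
        have c1 := sub_eq_zero.1 ((mul_eq_zero.1 b1).resolve_left (mul_ne_zero h2' hk))
        have c2 := sub_eq_zero.1 ((mul_eq_zero.1 b2).resolve_left (mul_ne_zero h2' hk))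
        have b3 : ((m : K) ^ 2 - n ^ 2) ^ 2 * x ^ 2 = 0 := by
          rw [← c1, ← c2] at a1
          linear_combination -a1
        have b4 := (mul_eq_zero.1 b3).resolve_left (pow_ne_zero 2 hM)
        exact absurd (pow_eq_zero_iff (two_ne_zero) |>.1 b4) hx

lemma deriv_aux {R : Type*} [CommRing R] (A B D a : R) :
    (Polynomial.C A * Polynomial.X ^ 4 + Polynomial.C B * Polynomial.X ^ 2 +
      Polynomial.C D : Polynomial R).derivative.aeval a = 4 * A * a ^ 3 + 2 * B * a := by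
  simp
  ring

open Polynomial in
lemma hensel_x {p : ℕ} [Fact p.Prime] {m n : ℤ} (x y z : ZMod p)
    (hne : ¬ (x = 0 ∧ y = 0 ∧ z = 0)) (hF : F m n x y z = 0)
    (hx : 4 * (((m : ZMod p) ^ 2 + (n : ZMod p) ^ 2) ^ 2 * x ^ 3
      - ((m : ZMod p) ^ 4 + (n : ZMod p) ^ 4) * x * (y ^ 2 + z ^ 2)) ≠ 0) :
    ∃ a b c : ℤ_[p], F m n a b c = 0 ∧ ¬ (a = 0 ∧ b = 0 ∧ c = 0) := by
  obtain ⟨a, ha⟩ := SqAux.toZMod_surj x
  obtain ⟨b, hb⟩ := SqAux.toZMod_surj y
  obtain ⟨c, hc⟩ := SqAux.toZMod_surj z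
  set G : Polynomial ℤ_[p] := F m n Polynomial.X (Polynomial.C b) (Polynomial.C c) with hG
  have e1 : ∀ t : ℤ_[p], G.aeval t = F m n t b c := by
    intro t
    rw [hG]
    simp [F]
  have e2 : G.derivative.aeval a = 4 * (((m : ℤ_[p]) ^ 2 + (n : ℤ_[p]) ^ 2) ^ 2 * a ^ 3
      - ((m : ℤ_[p]) ^ 4 + (n : ℤ_[p]) ^ 4) * a * (b ^ 2 + c ^ 2)) := by
    have hG' : G = Polynomial.C (((m : ℤ_[p]) ^ 2 + (n : ℤ_[p]) ^ 2) ^ 2) * Polynomial.X ^ 4 +
        Polynomial.C (-(2 * ((m : ℤ_[p]) ^ 4 + (n : ℤ_[p]) ^ 4) * (b ^ 2 + c ^ 2))) *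
          Polynomial.X ^ 2 + Polynomial.C (((m : ℤ_[p]) ^ 2 + (n : ℤ_[p]) ^ 2) ^ 2 *
          (b ^ 4 + c ^ 4) - 2 * ((m : ℤ_[p]) ^ 4 + (n : ℤ_[p]) ^ 4) * (b ^ 2 * c ^ 2)) := by
      rw [hG]
      simp only [F, map_sub, map_mul, map_add, map_pow, map_neg, map_intCast, map_ofNat]
      ring
    rw [hG', deriv_aux]
    ring
  have e3 : PadicInt.toZMod (G.derivative.aeval a) ≠ 0 := by
    rw [e2]
    simp only [map_mul, map_sub, map_add, map_pow, map_intCast, map_ofNat, ha, hb, hc]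
    exact hx
  have e4 : ‖G.derivative.aeval a‖ = 1 := by
    rw [← PadicInt.isUnit_iff, SqAux.isUnit_iff_toZMod]
    exact e3
  have e5 : ‖G.aeval a‖ < 1 := by
    rw [SqAux.norm_lt_one_iff, e1, F_map, ha, hb, hc]
    exact hF
  obtain ⟨t, ht1, ht2, -⟩ := hensels_lemma (F := G) (a := a) (by rw [e4, one_pow]; exact e5)
  refine ⟨t, b, c, ?_, ?_⟩
  · rw [← e1]
    exact ht1
  · rintro ⟨h1, h2, h3⟩
    apply hne
    rw [e4, SqAux.norm_lt_one_iff, map_sub, sub_eq_zero] at ht2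
    refine ⟨?_, ?_, ?_⟩
    · rw [← ha, ← ht2, h1, map_zero]
    · rw [← hb, h2, map_zero]
    · rw [← hc, h3, map_zero]

open MvPolynomial in
lemma totalDegree_F (p : ℕ) [Fact p.Prime] (m n : ℤ) (d : ZMod p) :
    (C d * F m n (X 0) (X 1) (X 2) : MvPolynomial (Fin 3) (ZMod p)).totalDegree ≤ 4 := by
  have hX : ∀ i : Fin 3, ∀ k : ℕ, ((X i : MvPolynomial (Fin 3) (ZMod p)) ^ k).totalDegree ≤ k := by
    intro i k
    exact (totalDegree_pow _ _).trans (by rw [totalDegree_X, mul_one])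
  have hXX : ∀ i j : Fin 3, ((X i : MvPolynomial (Fin 3) (ZMod p)) ^ 2 * X j ^ 2).totalDegree ≤ 4 :=
    fun i j => (totalDegree_mul _ _).trans (by have := hX i 2; have := hX j 2; omega)
  have hm : ((((m : MvPolynomial (Fin 3) (ZMod p)) ^ 2 + (n : MvPolynomial (Fin 3) (ZMod p)) ^ 2) ^ 2)
      : MvPolynomial (Fin 3) (ZMod p)) = C (((m : ZMod p) ^ 2 + (n : ZMod p) ^ 2) ^ 2) := by
    simp
  have hn : (2 * ((m : MvPolynomial (Fin 3) (ZMod p)) ^ 4 + (n : MvPolynomial (Fin 3) (ZMod p)) ^ 4)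
      : MvPolynomial (Fin 3) (ZMod p)) = C (2 * ((m : ZMod p) ^ 4 + (n : ZMod p) ^ 4)) := by
    simp only [map_mul, map_add, map_pow, map_intCast, map_ofNat]
  have hC : ∀ (c : ZMod p) (f : MvPolynomial (Fin 3) (ZMod p)), f.totalDegree ≤ 4 →
      (C c * f).totalDegree ≤ 4 := by
    intro c f hf
    refine (totalDegree_mul _ _).trans ?_
    rw [totalDegree_C, zero_add]
    exact hf
  apply hC
  unfold F
  rw [hm, hn]
  refine (totalDegree_sub _ _).trans (max_le (hC _ _ ?_) (hC _ _ ?_))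
  · refine (totalDegree_add _ _).trans (max_le ((totalDegree_add _ _).trans (max_le ?_ ?_)) ?_)
    all_goals exact hX _ 4
  · refine (totalDegree_add _ _).trans (max_le ((totalDegree_add _ _).trans (max_le ?_ ?_)) ?_)
    all_goals exact hXX _ _

open MvPolynomial in
lemma exists_square (p : ℕ) [Fact p.Prime] (hp : p ≠ 2) (m n : ℤ) (d : ZMod p) :
    ∃ x y z : ZMod p, ¬ (x = 0 ∧ y = 0 ∧ z = 0) ∧ IsSquare (d * F m n x y z) := by
  by_contra hcon
  push Not at hcon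
  have hpo : p % 2 = 1 := (Fact.out : p.Prime).eq_two_or_odd.resolve_left hp
  have hp3 : 3 ≤ p := by
    have := (Fact.out : p.Prime).two_le
    omega
  set f : MvPolynomial (Fin 3) (ZMod p) := (C d * F m n (X 0) (X 1) (X 2)) ^ (p / 2) with hf
  have h1 : f.totalDegree < (Fintype.card (ZMod p) - 1) * Fintype.card (Fin 3) := by
    rw [ZMod.card, Fintype.card_fin, hf]
    refine lt_of_le_of_lt (totalDegree_pow _ _) ?_
    have h2 := totalDegree_F p m n d
    have h3 := Nat.mul_le_mul_left (p / 2) h2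
    omega
  have h2 := MvPolynomial.sum_eval_eq_zero f h1
  have h3 : ∀ v : Fin 3 → ZMod p, eval v f = if v = 0 then 0 else -1 := by
    intro v
    have e1 : eval v f = (d * F m n (v 0) (v 1) (v 2)) ^ (p / 2) := by
      rw [hf, map_pow, map_mul, eval_C, F_map, eval_X, eval_X, eval_X]
    rw [e1]
    split_ifs with hv
    · rw [hv]
      have e2 : d * F m n ((0 : Fin 3 → ZMod p) 0) ((0 : Fin 3 → ZMod p) 1)
          ((0 : Fin 3 → ZMod p) 2) = 0 := by simp [F]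
      rw [e2, zero_pow (by omega)]
    · have hv' : ¬ (v 0 = 0 ∧ v 1 = 0 ∧ v 2 = 0) := by
        rintro ⟨a, b, c⟩
        apply hv
        ext i
        fin_cases i
        · exact a
        · exact b
        · exact c
      have e2 := hcon (v 0) (v 1) (v 2) (fun a b c => hv' ⟨a, b, c⟩)
      have e3 : d * F m n (v 0) (v 1) (v 2) ≠ 0 := by
        intro h
        rw [h] at e2
        exact e2 (IsSquare.zero)
      rcases ZMod.pow_div_two_eq_neg_one_or_one p e3 with h | h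
      · exact absurd ((ZMod.euler_criterion p e3).2 h) e2
      · exact h
  rw [Finset.sum_congr rfl fun v _ => h3 v] at h2
  have h4 : ∀ v : Fin 3 → ZMod p, (if v = 0 then (0 : ZMod p) else -1) =
      -1 + (if v = 0 then 1 else 0) := by
    intro v
    split_ifs
    · ring
    · ring
  rw [Finset.sum_congr rfl fun v _ => h4 v, Finset.sum_add_distrib, Finset.sum_const,
    Finset.sum_ite_eq' Finset.univ (0 : Fin 3 → ZMod p), if_pos (Finset.mem_univ _)] at h2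
  rw [Finset.card_univ, Fintype.card_fun, ZMod.card, Fintype.card_fin, nsmul_eq_mul] at h2
  push_cast at h2
  rw [ZMod.natCast_self, zero_pow (by norm_num), zero_mul, zero_add] at h2
  exact one_ne_zero h2

end EAux

open EAux

theorem good_nonempty {p : ℕ} [Fact p.Prime] {m n d : ℤ} (hb : ¬ (p : ℤ) ∣ bad m n)
    (hd : ¬ (p : ℤ) ∣ d) : Nonempty (Pt m n d ℚ_[p]) := by
  have hp2 : p ≠ 2 := by
    rintro rfl
    apply hb
    unfold bad
    exact Dvd.dvd.mul_right (Dvd.dvd.mul_right (Dvd.dvd.mul_right (Dvd.dvd.mul_right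
      (Dvd.dvd.mul_right (by norm_num) _) _) _) _) _
  have hdZ : (d : ZMod p) ≠ 0 := by
    rw [Ne, ZMod.intCast_zmod_eq_zero_iff_dvd]
    exact hd
  have hbZ : ((bad m n : ℤ) : ZMod p) ≠ 0 := by
    rw [Ne, ZMod.intCast_zmod_eq_zero_iff_dvd]
    exact hb
  -- a nonzero integral solution gives a point
  have fin : ∀ a b c w : ℤ_[p], ¬ (a = 0 ∧ b = 0 ∧ c = 0) →
      w ^ 2 = (d : ℤ_[p]) * F m n a b c → Nonempty (Pt m n d ℚ_[p]) := by
    intro a b c w hne h
    refine ⟨⟨(a : ℚ_[p]), b, c, w, ?_, ?_⟩⟩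
    · rintro ⟨h1, h2, h3⟩
      apply hne
      refine ⟨?_, ?_, ?_⟩
      · exact PadicInt.coe_eq_zero.1 h1
      · exact PadicInt.coe_eq_zero.1 h2
      · exact PadicInt.coe_eq_zero.1 h3
    · have h2 := congrArg (PadicInt.Coe.ringHom (p := p)) h
      rw [map_pow, map_mul, map_intCast, F_map] at h2
      exact h2
  obtain ⟨x, y, z, hne, hsq⟩ := exists_square p hp2 m n (d : ZMod p)
  by_cases h0 : F m n x y z = 0
  · -- smooth point of the curve
    have hsing := no_sing hbZ x y z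
    by_cases h1 : 4 * (((m : ZMod p) ^ 2 + (n : ZMod p) ^ 2) ^ 2 * x ^ 3
      - ((m : ZMod p) ^ 4 + (n : ZMod p) ^ 4) * x * (y ^ 2 + z ^ 2)) = 0
    · by_cases h2 : 4 * (((m : ZMod p) ^ 2 + (n : ZMod p) ^ 2) ^ 2 * y ^ 3
          - ((m : ZMod p) ^ 4 + (n : ZMod p) ^ 4) * y * (z ^ 2 + x ^ 2)) = 0
      · by_cases h3 : 4 * (((m : ZMod p) ^ 2 + (n : ZMod p) ^ 2) ^ 2 * z ^ 3
            - ((m : ZMod p) ^ 4 + (n : ZMod p) ^ 4) * z * (x ^ 2 + y ^ 2)) = 0
        · exact absurd (hsing h1 h2 h3) hne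
        · obtain ⟨a, b, c, hF, hn⟩ := hensel_x (m := m) (n := n) z x y
            (fun h => hne ⟨h.2.1, h.2.2, h.1⟩) (by rw [← h0]; unfold F; ring) h3
          exact fin a b c 0 hn (by rw [hF]; ring)
      · obtain ⟨a, b, c, hF, hn⟩ := hensel_x (m := m) (n := n) y z x
          (fun h => hne ⟨h.2.2, h.1, h.2.1⟩) (by rw [← h0]; unfold F; ring) h2
        exact fin a b c 0 hn (by rw [hF]; ring)
    · obtain ⟨a, b, c, hF, hn⟩ := hensel_x (m := m) (n := n) x y z hne h0 h1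
      exact fin a b c 0 hn (by rw [hF]; ring)
  · obtain ⟨a, ha⟩ := SqAux.toZMod_surj x
    obtain ⟨b, hb'⟩ := SqAux.toZMod_surj y
    obtain ⟨c, hc⟩ := SqAux.toZMod_surj z
    have e : PadicInt.toZMod ((d : ℤ_[p]) * F m n a b c) = (d : ZMod p) * F m n x y z := by
      rw [map_mul, map_intCast, F_map, ha, hb', hc]
    obtain ⟨w, hw⟩ := isSquare_of_toZMod hp2 ((d : ℤ_[p]) * F m n a b c) (by
      rw [SqAux.isUnit_iff_toZMod, e]
      exact mul_ne_zero hdZ h0) (by rw [e]; exact hsq)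
    refine fin a b c w ?_ (by rw [hw, sq])
    rintro ⟨h1, h2, h3⟩
    apply hne
    refine ⟨?_, ?_, ?_⟩
    · rw [← ha, h1, map_zero]
    · rw [← hb', h2, map_zero]
    · rw [← hc, h3, map_zero]

end Pool.Agent.Helper8.DP2
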